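import Pool.Agent.Helper89.PB.Exact
import Pool.Agent.Helper98.PB.Type

/-!
# PB, piece A3: from orbits to inputs
-/

set_option autoImplicit false
set_option linter.unusedSectionVars false

namespace Pool.Agent.Helper89.PB

open Finset Pool.Agent.Helper19.NF Pool.Agent.Helper74.NW Pool.Agent.Helper99.NQ Pool.Agent.Helper96.PB
open Pool.Agent.Helper74.NE (fine fine_apply)
open Pool.Agent.Helper96.PH (Det)
open Pool.Agent.Helper66.NQ (act act_congr cf_act val_act val_act_succ mem_free)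
open Pool.Agent.Helper98.PB (run_unique average2)

variable {n D m S : ℕ} [NeZero m] {F B Z : Type} [Field F] [Fintype F] [AddCommGroup B] [Module F B] [Fintype B]

/-- The bound for one orbit. -/
theorem orbit_inD (P : NProg (B × Word D m B) F Z S) (hP : Det P) (g : Fin D → Equiv.Perm (Fin n))
    (x0 : Fin n × Fin m → B) (h T i : ℕ) (s p : Fin S) (k1 k2 : ℕ) (A : Finset (Fin n))
    (h1 h2 : Fin n → Fin D × Fin m) (hh : 0 < h) (η : ℝ)
    (hη : η = 1 + (1 - (T : ℝ) / Fintype.card (B × Word D m B) - (h : ℝ) / Fintype.card (Word D m B)) / 2)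
    (hη1 : 1 ≤ η) (I : B × Word D m B → F) (hI : CF (fine g) x0 i (tab I)) :
    (Nat.card {x : Ch n D m F B // InD P g x0 h T i s p k1 k2 A h1 h2 (act g x0 i I x)} : ℝ) ≤
      2 * (1 / ((h : ℝ) / Fintype.card (Word D m B))) ^ (2 * A.card) / η ^ (m * A.card) *
        Nat.card (Ch n D m F B) := by
  classical
  set cell : Fin n × Fin m → B := val (fine g) x0 (tab I) i with hcell
  set t0 : Fin n × Fin m → B := val (fine g) x0 (tab I) (i + 1) with ht0
  let E : Finset (Ch n D m F B) := univ.filter fun x => InD P g x0 h T i s p k1 k2 A h1 h2 (act g x0 i I x)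
  let E1 : Finset (Ch n D m F B) := univ.filter fun x => ∃ c, P.Run (act g x0 i I x) s c p ∧ c.length = k1
  let E2 : Finset (Ch n D m F B) := univ.filter fun x => ∃ c t, P.Run (act g x0 i I x) p c t ∧ c.length = k2
  have hE : ∀ x, x ∈ E ↔ InD P g x0 h T i s p k1 k2 A h1 h2 (act g x0 i I x) := fun x => by
    show x ∈ univ.filter _ ↔ _
    rw [mem_filter]
    exact and_iff_right (mem_univ _)
  have hE1 : ∀ x, x ∈ E1 ↔ ∃ c, P.Run (act g x0 i I x) s c p ∧ c.length = k1 := fun x => by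
    show x ∈ univ.filter _ ↔ _
    rw [mem_filter]
    exact and_iff_right (mem_univ _)
  have hE2 : ∀ x, x ∈ E2 ↔ ∃ c t, P.Run (act g x0 i I x) p c t ∧ c.length = k2 := fun x => by
    show x ∈ univ.filter _ ↔ _
    rw [mem_filter]
    exact and_iff_right (mem_univ _)
  have hw1 : ∀ x, ∃ c : List (B × Word D m B), x ∈ E1 → P.Run (act g x0 i I x) s c p ∧ c.length = k1 := by
    intro x
    by_cases hx : x ∈ E1
    · obtain ⟨c, hc⟩ := (hE1 x).1 hx
      exact ⟨c, fun _ => hc⟩
    · exact ⟨[], fun h => absurd h hx⟩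
  have hw2 : ∀ x, ∃ c : List (B × Word D m B), x ∈ E2 → ∃ t, P.Run (act g x0 i I x) p c t ∧ c.length = k2 := by
    intro x
    by_cases hx : x ∈ E2
    · obtain ⟨c, hc⟩ := (hE2 x).1 hx
      exact ⟨c, fun _ => hc⟩
    · exact ⟨[], fun h => absurd h hx⟩
  choose c1 hc1 using hw1
  choose c2 hc2 using hw2
  -- the runs of the elements of `E`
  have hrun : ∀ x ∈ E, x ∈ E1 ∧ x ∈ E2 ∧
      Fintype.card (B × Word D m B) ≤ (free (c1 x) ∩ free (c2 x)).card + T ∧
      (∀ u ∈ A, ∀ t', gap (free (c1 x) ∩ free (c2 x)) (t0 (u, t') + lam g x (u, t')) < h) ∧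
      (∀ u ∈ A, h ≤ gap (free (c1 x)) (cell (pos g h1 u))) ∧
      (∀ u ∈ A, h ≤ gap (free (c2 x)) (cell (pos g h2 u))) := by
    intro x hx
    obtain ⟨d1, d2, t, r1, r2, l1, l2, q1, q2, q3, q4⟩ := ((hE x).1 hx).run
    have m1 : x ∈ E1 := (hE1 x).2 ⟨d1, r1, l1⟩
    have m2 : x ∈ E2 := (hE2 x).2 ⟨d2, t, r2, l2⟩
    have u1 : d1 = c1 x := (run_unique hP r1 (hc1 x m1).1 (l1.trans (hc1 x m1).2.symm)).1
    have u2 : d2 = c2 x := by
      obtain ⟨t', r2', l2'⟩ := hc2 x m2
      exact (run_unique hP r2 r2' (l2.trans l2'.symm)).1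
    subst u1 u2
    refine ⟨m1, m2, ?_, ?_, ?_, ?_⟩
    · refine q1.trans (Nat.add_le_add_right (le_of_eq ?_) _)
      congr 1
    · intro u hu t'
      have h3 := q2 u hu t'
      rw [val_act_succ hI] at h3
      refine lt_of_le_of_lt (le_of_eq ?_) h3
      congr 1
    · intro u hu
      have h3 := q3 u hu
      rw [val_act hI x le_rfl] at h3
      exact h3
    · intro u hu
      have h3 := q4 u hu
      rw [val_act hI x le_rfl] at h3
      exact h3
  have hcong : ∀ (x y : Ch n D m F B) (c : List (B × Word D m B)),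
      (∀ p l, y p l ≠ x p l → l ∈ left cell (free c) p) →
      ∀ z ∈ c, act g x0 i I x z = act g x0 i I y z := by
    intro x y c hy z hz
    refine (act_congr hI y x z fun q hq => ?_).symm
    by_contra hne
    have h3 := hy q z.2 hne
    unfold left at h3
    rw [mem_filter] at h3
    have h4 := h3.2
    rw [hcell, hq, mem_free] at h4
    exact h4 hz
  have hcard : Nat.card {x : Ch n D m F B // InD P g x0 h T i s p k1 k2 A h1 h2 (act g x0 i I x)} = E.card := by
    rw [Nat.card_eq_fintype_card, Fintype.card_subtype]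
  rw [hcard]
  refine exact_bound g h1 h2 cell t0 h T E E1 E2 (fun x => free (c1 x)) (fun x => free (c2 x))
    (fun x hx => (hrun x hx).1) (fun x hx => (hrun x hx).2.1) ?_ ?_ A ?_ ?_ ?_ ?_ hh η hη hη1
  · intro x hx x' hx'
    obtain ⟨r, l⟩ := hc1 x hx
    have r' : P.Run (act g x0 i I x') s (c1 x) p := run_congr r (hcong x x' (c1 x) hx')
    have m' : x' ∈ E1 := (hE1 x').2 ⟨c1 x, r', l⟩
    refine ⟨m', ?_⟩
    have := (run_unique hP (hc1 x' m').1 r' ((hc1 x' m').2.trans l.symm)).1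
    show free (c1 x') = free (c1 x)
    rw [this]
  · intro x hx x' hx'
    obtain ⟨t, r, l⟩ := hc2 x hx
    have r' : P.Run (act g x0 i I x') p (c2 x) t := run_congr r (hcong x x' (c2 x) hx')
    have m' : x' ∈ E2 := (hE2 x').2 ⟨c2 x, t, r', l⟩
    refine ⟨m', ?_⟩
    obtain ⟨t'', r'', l''⟩ := hc2 x' m'
    have := (run_unique hP r'' r' (l''.trans l.symm)).1
    show free (c2 x') = free (c2 x)
    rw [this]
  · intro x hx
    refine (hrun x hx).2.2.1.trans (Nat.add_le_add_right (le_of_eq ?_) _)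
    congr 1
  · intro x hx u hu t
    refine lt_of_le_of_lt (le_of_eq ?_) ((hrun x hx).2.2.2.1 u hu t)
    congr 1
  · intro x hx u hu
    exact (hrun x hx).2.2.2.2.1 u hu
  · intro x hx u hu
    exact (hrun x hx).2.2.2.2.2 u hu

/-- A3b. -/
theorem card_inD (P : NProg (B × Word D m B) F Z S) (hP : Det P) (g : Fin D → Equiv.Perm (Fin n))
    (x0 : Fin n × Fin m → B) (h T i : ℕ) (s p : Fin S) (k1 k2 : ℕ) (A : Finset (Fin n))
    (h1 h2 : Fin n → Fin D × Fin m) (hh : 0 < h) (η : ℝ)
    (hη : η = 1 + (1 - (T : ℝ) / Fintype.card (B × Word D m B) - (h : ℝ) / Fintype.card (Word D m B)) / 2)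
    (hη1 : 1 ≤ η) :
    (Nat.card {I // InD P g x0 h T i s p k1 k2 A h1 h2 I} : ℝ) ≤
      2 * (1 / ((h : ℝ) / Fintype.card (Word D m B))) ^ (2 * A.card) / η ^ (m * A.card) *
        Nat.card (B × Word D m B → F) := by
  have hη0 : (0 : ℝ) < η := by linarith
  have h3 := average2 g x0 i (fun I => InD P g x0 h T i s p k1 k2 A h1 h2 I) (fun _ => False)
    (fun I hI => hI.cf) (fun I hI => hI.elim) 1
    (2 * (1 / ((h : ℝ) / Fintype.card (Word D m B))) ^ (2 * A.card) / η ^ (m * A.card)) (by positivity)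
    (fun I hI => by
      refine (orbit_inD P hP g x0 h T i s p k1 k2 A h1 h2 hh η hη hη1 I hI).trans ?_
      refine le_add_of_nonneg_left (by positivity))
  refine h3.trans (le_of_eq ?_)
  have h4 : Nat.card {I : B × Word D m B → F // False} = 0 := by
    have : IsEmpty {I : B × Word D m B → F // False} := ⟨fun I => I.2⟩
    exact Nat.card_of_isEmpty
  rw [h4, Nat.cast_zero, zero_div, zero_add]

end Pool.Agent.Helper89.PB
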