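import Pool.Agent.Helper96.PB.Defs
import Pool.Agent.Helper74.NQ.Pairs
import Pool.Agent.Helper89.NK.Chain

/-!
# PB, piece A2: the bound in one orbit for exact closures
-/

set_option autoImplicit false
set_option linter.unusedSectionVars false

namespace Pool.Agent.Helper89.PB

open Finset Pool.Agent.Helper19.NF Pool.Agent.Helper74.NW Pool.Agent.Helper99.NQ Pool.Agent.Helper96.PB
open Pool.Agent.Helper74.NQ (fixed_bound flip_ne_zero card_filter_eq)

variable {n D m : ℕ} [NeZero m] {F B : Type} [Field F] [Fintype F] [AddCommGroup B] [Module F B] [Fintype B]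

open Classical in
/-- The indicator of `A`. -/
noncomputable def ind (F : Type) [Field F] (A : Finset (Fin n)) : Fin n → Fin 1 → F := fun u _ => if u ∈ A then 1 else 0

theorem ind_ne (A : Finset (Fin n)) (u : Fin n) : ind F A u ≠ 0 ↔ u ∈ A := by
  constructor
  · intro h
    by_contra hu
    refine h ?_
    funext j
    simp [ind, hu]
  · intro hu h
    have := congrFun h 0
    simp [ind, hu] at this

open Classical in
theorem exact_bound (g : Fin D → Equiv.Perm (Fin n)) (h1 h2 : Fin n → Fin D × Fin m) (cell t0 : Fin n × Fin m → B)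
    (h T : ℕ) (E E1 E2 : Finset (Ch n D m F B)) (V1 V2 : Ch n D m F B → Finset (B × Word D m B))
    (hE1 : E ⊆ E1) (hE2 : E ⊆ E2)
    (cl1 : ∀ x ∈ E1, ∀ x', (∀ p l, x' p l ≠ x p l → l ∈ left cell (V1 x) p) → x' ∈ E1 ∧ V1 x' = V1 x)
    (cl2 : ∀ x ∈ E2, ∀ x', (∀ p l, x' p l ≠ x p l → l ∈ left cell (V2 x) p) → x' ∈ E2 ∧ V2 x' = V2 x)
    (A : Finset (Fin n))
    (hT : ∀ x ∈ E, Fintype.card (B × Word D m B) ≤ (V1 x ∩ V2 x).card + T)
    (hfull : ∀ x ∈ E, ∀ u ∈ A, ∀ t, gap (V1 x ∩ V2 x) (t0 (u, t) + lam g x (u, t)) < h)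
    (hJ1 : ∀ x ∈ E, ∀ u ∈ A, h ≤ (left cell (V1 x) (pos g h1 u)).card)
    (hJ2 : ∀ x ∈ E, ∀ u ∈ A, h ≤ (left cell (V2 x) (pos g h2 u)).card) (hh : 0 < h) (η : ℝ)
    (hη : η = 1 + (1 - (T : ℝ) / Fintype.card (B × Word D m B) - (h : ℝ) / Fintype.card (Word D m B)) / 2)
    (hη1 : 1 ≤ η) :
    (E.card : ℝ) ≤ 2 * (1 / ((h : ℝ) / Fintype.card (Word D m B))) ^ (2 * A.card) / η ^ (m * A.card) *
      Nat.card (Ch n D m F B) := by
  set L := Fintype.card (Word D m B) with hL
  set e := ind F A with he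
  -- the changes for one point
  let S1 : Ch n D m F B → Finset (Fin n → Fin 1 → Word D m B) := fun x =>
    univ.filter fun b => ∀ u ∈ A, ∀ j, b u j ∈ left cell (V1 x) (pos g h1 u)
  let S2 : Ch n D m F B → Finset (Fin n → Fin 1 → Word D m B) := fun x =>
    univ.filter fun b => ∀ u ∈ A, ∀ j, b u j ∈ left cell (V2 x) (pos g h2 u)
  let Q : Ch n D m F B → Finset ((Fin n → Fin 1 → Word D m B) × (Fin n → Fin 1 → Word D m B)) := fun x0 =>
    univ.filter (fun b : (Fin n → Fin 1 → Word D m B) × (Fin n → Fin 1 → Word D m B) =>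
      Fintype.card (B × Word D m B) ≤
        (V1 (x0 + flip g h2 b.2 e) ∩ V2 (x0 + flip g h1 b.1 e)).card + T ∧
      ∀ u ∈ A, ∀ t, gap (V1 (x0 + flip g h2 b.2 e) ∩ V2 (x0 + flip g h1 b.1 e))
        (t0 (u, t) + lam g (x0 + flip g h1 b.1 e + flip g h2 b.2 e) (u, t)) < h)
  have hQ : ∀ x0, ((Q x0).card : ℝ) ≤ 2 / η ^ (m * A.card) *
      Fintype.card ((Fin n → Fin 1 → Word D m B) × (Fin n → Fin 1 → Word D m B)) := fun x0 =>
    fixed_bound (d := 1) g h1 h2 t0 h T A.card V1 V2 η hη hη1 x0 e e A le_rfl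
      (fun u hu => (ind_ne A u).2 hu) (fun u hu => (ind_ne A u).2 hu)
  -- the injection
  have hinj : (E.sigma fun x => S1 x ×ˢ S2 x).card ≤ ((univ : Finset (Ch n D m F B)).sigma Q).card := by
    refine card_le_card_of_injOn (fun z => ⟨z.1 - flip g h1 z.2.1 e - flip g h2 z.2.2 e, (z.2.1, z.2.2)⟩) ?_ ?_
    · rintro ⟨x, b, b'⟩ hz
      rw [mem_coe, mem_sigma, mem_product, mem_filter, mem_filter] at hz
      obtain ⟨hx, ⟨-, h5⟩, -, h8⟩ := hz
      simp only at hx h5 h8
      rw [mem_coe, mem_sigma, mem_filter]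
      refine ⟨mem_univ _, mem_univ _, ?_⟩
      have a1 : x - flip g h1 b e - flip g h2 b' e + flip g h2 b' e = x - flip g h1 b e := sub_add_cancel _ _
      have a2 : x - flip g h1 b e - flip g h2 b' e + flip g h1 b e = x - flip g h2 b' e := by
        rw [sub_right_comm, sub_add_cancel]
      have a3 : x - flip g h1 b e - flip g h2 b' e + flip g h1 b e + flip g h2 b' e = x := by
        rw [a2, sub_add_cancel]
      have c1 : V1 (x - flip g h1 b e) = V1 x := by
        refine (cl1 x (hE1 hx) _ ?_).2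
        intro p l hpl
        have h9 : flip g h1 b e p l ≠ 0 := by
          intro h10
          refine hpl ?_
          rw [Pi.sub_apply, Pi.sub_apply, h10, sub_zero]
        obtain ⟨u, j, h10, h11, h12⟩ := flip_ne_zero h9
        have h14 := h5 u ((ind_ne A u).1 h12) j
        rw [← h10, ← h11]
        exact h14
      have c2 : V2 (x - flip g h2 b' e) = V2 x := by
        refine (cl2 x (hE2 hx) _ ?_).2
        intro p l hpl
        have h9 : flip g h2 b' e p l ≠ 0 := by
          intro h10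
          refine hpl ?_
          rw [Pi.sub_apply, Pi.sub_apply, h10, sub_zero]
        obtain ⟨u, j, h10, h11, h12⟩ := flip_ne_zero h9
        have h14 := h8 u ((ind_ne A u).1 h12) j
        rw [← h10, ← h11]
        exact h14
      show _ ≤ (V1 (x - flip g h1 b e - flip g h2 b' e + flip g h2 b' e) ∩
        V2 (x - flip g h1 b e - flip g h2 b' e + flip g h1 b e)).card + T ∧
        ∀ u ∈ A, ∀ t, gap (V1 (x - flip g h1 b e - flip g h2 b' e + flip g h2 b' e) ∩
          V2 (x - flip g h1 b e - flip g h2 b' e + flip g h1 b e))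
        (t0 (u, t) + lam g (x - flip g h1 b e - flip g h2 b' e + flip g h1 b e + flip g h2 b' e) (u, t)) < h
      rw [a3, a1, a2, c1, c2]
      exact ⟨hT x hx, hfull x hx⟩
    · rintro ⟨x, b, b'⟩ - ⟨y, c, c'⟩ - hzz
      simp only [Sigma.mk.injEq, Prod.mk.injEq, heq_eq_eq] at hzz
      obtain ⟨h3, h4, h5⟩ := hzz
      subst h4 h5
      have h8 : x = y := by
        rw [sub_left_inj, sub_left_inj] at h3
        exact h3
      rw [h8]
  -- the counts
  have hS1 : ∀ x ∈ E, h ^ A.card * L ^ (n - A.card) ≤ (S1 x).card := by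
    intro x hx
    have := Helper89.NK.card_free (ι := Fin n) (δ := Fin 1) (fun u => left cell (V1 x) (pos g h1 u)) A h (hJ1 x hx)
    rw [Fintype.card_fin, one_mul, one_mul, Fintype.card_fin] at this
    rw [card_filter_eq] at this
    show _ ≤ (univ.filter _).card
    rw [card_filter_eq]
    exact this
  have hS2 : ∀ x ∈ E, h ^ A.card * L ^ (n - A.card) ≤ (S2 x).card := by
    intro x hx
    have := Helper89.NK.card_free (ι := Fin n) (δ := Fin 1) (fun u => left cell (V2 x) (pos g h2 u)) A h (hJ2 x hx)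
    rw [Fintype.card_fin, one_mul, one_mul, Fintype.card_fin] at this
    rw [card_filter_eq] at this
    show _ ≤ (univ.filter _).card
    rw [card_filter_eq]
    exact this
  have hlow : E.card * (h ^ A.card * L ^ (n - A.card)) ^ 2 ≤ (E.sigma fun x => S1 x ×ˢ S2 x).card := by
    rw [card_sigma, ← smul_eq_mul, ← sum_const]
    refine sum_le_sum fun x hx => ?_
    rw [card_product, sq]
    exact Nat.mul_le_mul (hS1 x hx) (hS2 x hx)
  have hup : (((univ : Finset (Ch n D m F B)).sigma Q).card : ℝ) ≤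
      Fintype.card (Ch n D m F B) * (2 / η ^ (m * A.card) * ((L : ℝ) ^ n) ^ 2) := by
    rw [card_sigma, Nat.cast_sum]
    have hcard : (Fintype.card ((Fin n → Fin 1 → Word D m B) × (Fin n → Fin 1 → Word D m B)) : ℝ) =
        ((L : ℝ) ^ n) ^ 2 := by
      rw [Fintype.card_prod, Fintype.card_fun, Fintype.card_fun, Fintype.card_fin, Fintype.card_fin, pow_one]
      push_cast
      ring
    calc ∑ x0 : Ch n D m F B, ((Q x0).card : ℝ) ≤ ∑ _x0 : Ch n D m F B, 2 / η ^ (m * A.card) * ((L : ℝ) ^ n) ^ 2 :=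
          sum_le_sum fun x0 _ => by
            rw [← hcard]
            exact hQ x0
      _ = _ := by rw [sum_const, card_univ, nsmul_eq_mul]
  have hmain : (E.card : ℝ) * ((h : ℝ) ^ A.card * (L : ℝ) ^ (n - A.card)) ^ 2 ≤
      Fintype.card (Ch n D m F B) * (2 / η ^ (m * A.card) * ((L : ℝ) ^ n) ^ 2) := by
    refine le_trans ?_ hup
    have h3 := (Nat.cast_le (α := ℝ)).2 (hlow.trans hinj)
    push_cast at h3
    exact h3
  have hAn : A.card ≤ n := by
    have := card_le_univ A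
    rwa [Fintype.card_fin] at this
  have hLpos : (0 : ℝ) < L := Nat.cast_pos.2 (Fintype.card_pos_iff.2 ⟨0⟩)
  have hhpos : (0 : ℝ) < h := Nat.cast_pos.2 hh
  have hη0 : (0 : ℝ) < η := by linarith
  have hLn : (L : ℝ) ^ n = (L : ℝ) ^ A.card * (L : ℝ) ^ (n - A.card) := by
    rw [← pow_add, Nat.add_sub_cancel' hAn]
  rw [hLn] at hmain
  have hLp : (0 : ℝ) < ((L : ℝ) ^ (n - A.card)) ^ 2 := by positivity
  have hh2 : (0 : ℝ) < ((h : ℝ) ^ A.card) ^ 2 := by positivity
  have h4 : (E.card : ℝ) * ((h : ℝ) ^ A.card) ^ 2 ≤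
      Fintype.card (Ch n D m F B) * (2 / η ^ (m * A.card) * ((L : ℝ) ^ A.card) ^ 2) := by
    refine le_of_mul_le_mul_right ?_ hLp
    calc (E.card : ℝ) * ((h : ℝ) ^ A.card) ^ 2 * ((L : ℝ) ^ (n - A.card)) ^ 2 =
        (E.card : ℝ) * ((h : ℝ) ^ A.card * (L : ℝ) ^ (n - A.card)) ^ 2 := by ring
      _ ≤ _ := hmain
      _ = _ := by ring
  rw [← le_div_iff₀ hh2] at h4
  refine h4.trans (le_of_eq ?_)
  rw [Nat.card_eq_fintype_card, one_div, inv_div, div_pow, pow_mul' (L : ℝ) 2 A.card, pow_mul' (h : ℝ) 2 A.card]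
  ring

end Pool.Agent.Helper89.PB
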